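import Pool.Agent.FTA.Main

/-!
# LBM/Fb: the sum of `|Cl(K)[5]| - 1` over the imaginary quadratic fields
-/

set_option autoImplicit false

namespace Pool.Agent.LBM

open NumberField Pool.Agent.FTA

/-- `|Cl(K)[5]|` -/
noncomputable def h5 (K : IntermediateField ℚ ℂ) : ℝ := (Nat.card {g : ClassGroup (𝓞 K) // g ^ 5 = 1} : ℝ)

/-- `∑ (|Cl(K)[5]| - 1)` over `|D_K| ≤ X` -/
noncomputable def Ts (X : ℕ) : ℝ := ∑ K ∈ (famFin X).toFinset, (h5 K - 1)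

theorem h5_ge (K : IntermediateField ℚ ℂ) (hK : NumberField K) : 1 ≤ h5 K := by
  have hfin : Finite (ClassGroup (𝓞 K)) := inferInstance
  have hne : Nonempty {g : ClassGroup (𝓞 K) // g ^ 5 = 1} := ⟨⟨1, one_pow 5⟩⟩
  have h : 0 < Nat.card {g : ClassGroup (𝓞 K) // g ^ 5 = 1} := Nat.card_pos
  unfold h5
  exact_mod_cast h

theorem mem_fam {X : ℕ} {K : IntermediateField ℚ ℂ} : K ∈ (famFin X).toFinset ↔ K ∈ IQ X :=
  Set.Finite.mem_toFinset _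

theorem h5_nn {X : ℕ} {K : IntermediateField ℚ ℂ} (h : K ∈ (famFin X).toFinset) : 0 ≤ h5 K - 1 := by
  obtain ⟨hK, -⟩ := mem_fam.1 h
  linarith [h5_ge K hK]

theorem Ts_nn (X : ℕ) : 0 ≤ Ts X := Finset.sum_nonneg fun _ h => h5_nn h

theorem fam_mono {X Y : ℕ} (h : X ≤ Y) : (famFin X).toFinset ⊆ (famFin Y).toFinset := by
  intro K hK
  obtain ⟨hK, h1, h2, h3⟩ := mem_fam.1 hK
  exact mem_fam.2 ⟨hK, h1, h2, h3.trans h⟩

theorem Ts_mono {X Y : ℕ} (h : X ≤ Y) : Ts X ≤ Ts Y :=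
  Finset.sum_le_sum_of_subset_of_nonneg (fam_mono h) fun _ h1 _ => h5_nn h1

theorem Ts_zero : Ts 0 = 0 := by
  unfold Ts
  apply Finset.sum_eq_zero
  intro K hK
  obtain ⟨hK, h1, h2, h3⟩ := mem_fam.1 hK
  have := aD_pos K
  omega

/-- the upper bound -/
theorem Ts_le {B : ℝ} (_hB : 0 ≤ B) (h : ∀ X : ℕ, 1 ≤ X →
    ∑ᶠ K ∈ IQ X, (Nat.card {A : ClassGroup (𝓞 K) // A ^ 5 = 1} : ℝ) ≤ B * X) (X : ℕ) :
    Ts X ≤ B * X := by
  rcases Nat.eq_zero_or_pos X with h0 | h0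
  · subst h0
    rw [Ts_zero]
    simp
  · have h1 := h X h0
    rw [finsum_mem_eq_finite_toFinset_sum _ (famFin X)] at h1
    refine le_trans ?_ h1
    apply Finset.sum_le_sum
    intro K _
    show h5 K - 1 ≤ h5 K
    linarith

/-- the final form -/
theorem Ts_eq {X : ℝ} (hX : 0 ≤ X) :
    ∑ᶠ K ∈ {K : IntermediateField ℚ ℂ | ∃ _ : NumberField K, Module.finrank ℚ K = 2 ∧
        (∃ x : K, (x : ℂ).im ≠ 0) ∧ |((NumberField.discr K : ℤ) : ℝ)| ≤ X},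
        ((Nat.card {g : ClassGroup (NumberField.RingOfIntegers K) // g ^ 5 = 1} : ℝ) - 1) =
      Ts ⌊X⌋₊ := by
  rw [set_eq X hX, finsum_mem_eq_finite_toFinset_sum _ (famFin _)]
  rfl

end Pool.Agent.LBM
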