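import Mathlib

/-!
# LBM/Fc: `L6 f = 6 ^ ω(f) f / rad f` and the convergence of `∑ L6 f / f ^ 2`
-/

set_option autoImplicit false

namespace Pool.Agent.LBM

open Finset

/-- `6 ^ ω(f) f / rad f` -/
noncomputable def L6 (f : ℕ) : ℝ := 6 ^ f.primeFactors.card * ((f : ℝ) / ∏ p ∈ f.primeFactors, (p : ℝ))

theorem L6_nn (f : ℕ) : 0 ≤ L6 f := by
  unfold L6
  positivity

theorem L6_mul {m n : ℕ} (h : m.Coprime n) : L6 (m * n) = L6 m * L6 n := by
  unfold L6
  have hd : Disjoint m.primeFactors n.primeFactors := Nat.Coprime.disjoint_primeFactors h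
  rw [h.primeFactors_mul, card_union_of_disjoint hd, prod_union hd, pow_add]
  push_cast
  rw [mul_div_mul_comm]
  ring

/-- the summand -/
noncomputable def g6 (f : ℕ) : ℝ := L6 f / (f : ℝ) ^ 2

theorem g6_nn (f : ℕ) : 0 ≤ g6 f := div_nonneg (L6_nn f) (by positivity)

theorem g6_one : g6 1 = 1 := by
  unfold g6 L6
  simp

theorem g6_mul {m n : ℕ} (h : m.Coprime n) : g6 (m * n) = g6 m * g6 n := by
  unfold g6
  rw [L6_mul h]
  push_cast
  rw [mul_pow, mul_div_mul_comm]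

theorem g6_pp {p : ℕ} (hp : p.Prime) (k : ℕ) :
    g6 (p ^ (k + 1)) = 6 / (p : ℝ) ^ 2 * (1 / (p : ℝ)) ^ k := by
  have hp0 : (p : ℝ) ≠ 0 := by exact_mod_cast hp.ne_zero
  unfold g6 L6
  rw [Nat.primeFactors_prime_pow (Nat.succ_ne_zero k) hp]
  simp only [card_singleton, prod_singleton, pow_one]
  push_cast
  rw [div_pow, one_pow]
  field_simp
  ring

theorem g6_hs {p : ℕ} (hp : p.Prime) :
    HasSum (fun n : ℕ => g6 (p ^ n)) (1 + 6 / ((p : ℝ) * ((p : ℝ) - 1))) := by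
  have hp1 : (1 : ℝ) < p := by exact_mod_cast hp.one_lt
  have hp0 : (0 : ℝ) < p := by linarith
  have h1 : HasSum (fun n : ℕ => g6 (p ^ (n + 1))) (6 / (p : ℝ) ^ 2 * (1 - 1 / (p : ℝ))⁻¹) := by
    simp_rw [g6_pp hp]
    exact (hasSum_geometric_of_lt_one (by positivity) ((div_lt_one hp0).2 hp1)).mul_left _
  have h2 := h1.zero_add (f := fun n : ℕ => g6 (p ^ n))
  rw [pow_zero, g6_one] at h2
  convert h2 using 2
  have : (p : ℝ) - 1 ≠ 0 := by linarith
  field_simp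

theorem inv_sq_sum (n : ℕ) : ∑ k ∈ range n, 1 / (((k : ℝ) + 2) * ((k : ℝ) + 1)) ≤ 1 := by
  have h : ∀ n : ℕ, ∑ k ∈ range n, 1 / (((k : ℝ) + 2) * ((k : ℝ) + 1)) = 1 - 1 / ((n : ℝ) + 1) := by
    intro n
    induction n with
    | zero => simp
    | succ n ih =>
      rw [sum_range_succ, ih]
      push_cast
      field_simp
      ring
  rw [h]
  have : 0 ≤ 1 / ((n : ℝ) + 1) := by positivity
  linarith

theorem g6_bd (n : ℕ) : ∑ m ∈ range n, g6 m ≤ Real.exp 6 := by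
  classical
  obtain ⟨h1, h2⟩ := EulerProduct.summable_and_hasSum_smoothNumbers_prod_primesBelow_tsum (f := g6)
    g6_one (fun h => g6_mul h) (fun {p} hp => by
      have := (g6_hs hp).summable
      refine this.congr ?_
      intro k
      exact (Real.norm_of_nonneg (g6_nn _)).symm) n
  have h3 : ∑ m ∈ range n, g6 m ≤ ∑ m ∈ (Ico 1 n).attach, g6 (⟨m.1, Nat.mem_smoothNumbers_of_lt
      (mem_Ico.1 m.2).1 (mem_Ico.1 m.2).2⟩ : n.smoothNumbers) := by
    rw [sum_attach (Ico 1 n) (fun m => g6 m)]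
    rcases Nat.eq_zero_or_pos n with h | h
    · subst h; simp
    · rw [range_eq_Ico, sum_eq_sum_Ico_succ_bot h]
      have : g6 0 = 0 := by unfold g6 L6; simp
      rw [this, zero_add]
  refine h3.trans ?_
  have h4 : ∑ m ∈ (Ico 1 n).attach, g6 (⟨m.1, Nat.mem_smoothNumbers_of_lt
      (mem_Ico.1 m.2).1 (mem_Ico.1 m.2).2⟩ : n.smoothNumbers) =
      ∑ m ∈ (Ico 1 n).attach.image (fun m => (⟨m.1, Nat.mem_smoothNumbers_of_lt
      (mem_Ico.1 m.2).1 (mem_Ico.1 m.2).2⟩ : n.smoothNumbers)), g6 m := by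
    rw [sum_image]
    intro a _ b _ hab
    apply Subtype.ext
    exact congrArg (fun x : n.smoothNumbers => (x : ℕ)) hab
  rw [h4]
  refine (sum_le_hasSum _ (fun m _ => g6_nn _) h2).trans ?_
  have h5 : ∀ p ∈ n.primesBelow, ∑' k : ℕ, g6 (p ^ k) ≤ Real.exp (6 / ((p : ℝ) * ((p : ℝ) - 1))) := by
    intro p hp
    rw [(g6_hs (Nat.prime_of_mem_primesBelow hp)).tsum_eq, add_comm]
    exact Real.add_one_le_exp _
  refine (prod_le_prod (fun p _ => tsum_nonneg fun k => g6_nn _) h5).trans ?_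
  rw [← Real.exp_sum]
  apply Real.exp_le_exp.2
  have h6 : ∑ p ∈ n.primesBelow, 6 / ((p : ℝ) * ((p : ℝ) - 1)) ≤
      ∑ k ∈ range n, 6 * (1 / (((k : ℝ) + 2) * ((k : ℝ) + 1))) := by
    have hinj : Set.InjOn (fun p : ℕ => p - 2) (n.primesBelow : Set ℕ) := by
      intro a ha b hb hab
      have h1 := (Nat.prime_of_mem_primesBelow ha).two_le
      have h2 := (Nat.prime_of_mem_primesBelow hb).two_le
      simp only at hab
      omega
    have h7 : ∑ p ∈ n.primesBelow, 6 / ((p : ℝ) * ((p : ℝ) - 1)) =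
        ∑ k ∈ n.primesBelow.image (fun p : ℕ => p - 2), 6 * (1 / (((k : ℝ) + 2) * ((k : ℝ) + 1))) := by
      rw [sum_image hinj]
      refine sum_congr rfl fun p hp => ?_
      have h1 := (Nat.prime_of_mem_primesBelow hp).two_le
      rw [Nat.cast_sub h1]
      push_cast
      rw [show ((p : ℝ) - 2 + 2) = p by ring, show ((p : ℝ) - 2 + 1) = (p : ℝ) - 1 by ring]
      ring
    rw [h7]
    apply sum_le_sum_of_subset_of_nonneg
    · intro k hk
      obtain ⟨p, hp, rfl⟩ := mem_image.1 hk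
      have := Nat.lt_of_mem_primesBelow hp
      rw [mem_range]
      omega
    · intro k _ _
      positivity
  refine h6.trans ?_
  rw [← mul_sum]
  have := inv_sq_sum n
  linarith

theorem g6_sum : Summable g6 := summable_of_sum_range_le g6_nn g6_bd

/-- the tail of `∑ L6 f / f ^ 2` is small -/
theorem L6_tail (ε : ℝ) (hε : 0 < ε) : ∃ F : ℕ, ∀ t : Finset ℕ, (∀ f ∈ t, F ≤ f) →
    ∑ f ∈ t, L6 f / (f : ℝ) ^ 2 ≤ ε := by
  obtain ⟨s, hs⟩ := summable_iff_vanishing_norm.1 g6_sum ε hε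
  refine ⟨s.sup id + 1, ?_⟩
  intro t ht
  have h1 : Disjoint t s := by
    rw [disjoint_left]
    intro f hf hfs
    have h2 := ht f hf
    have h3 : f ≤ s.sup id := le_sup (f := id) hfs
    omega
  have h4 := hs t h1
  rw [Real.norm_of_nonneg (sum_nonneg fun f _ => g6_nn f)] at h4
  exact h4.le

end Pool.Agent.LBM
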