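import Pool.Agent.LBM.Fa
import Pool.Agent.LBM.Fb
import Pool.Agent.LBM.Fc

/-!
# LBM/Fd: the assembly of part F
-/

set_option autoImplicit false

namespace Pool.Agent.LBM

open NumberField Pool.Agent.FTA Pool.Agent.FTL Finset

/-- the upper bound (PP5) -/
def Tot : Prop := ∃ B : ℝ, 0 ≤ B ∧ ∀ X : ℕ, 1 ≤ X →
  ∑ᶠ K ∈ IQ X, (Nat.card {A : ClassGroup (𝓞 K) // A ^ 5 = 1} : ℝ) ≤ B * X

/-- the number of points with a given field and conductor (result of F1) -/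
def Mult : Prop := ∀ CV cD : ℝ, 0 < CV → 0 < cD → ∃ C y0 δ : ℝ, 0 ≤ C ∧ 0 < δ ∧ ∀ y : ℝ, y0 ≤ y →
  ∀ (K : IntermediateField ℚ ℂ) (_ : NumberField K), Module.finrank ℚ K = 2 →
  (∃ x : K, (x : ℂ).im ≠ 0) → ∀ f : ℕ, 1 ≤ f → (f : ℝ) ≤ y ^ δ → ∀ T : Finset PP5.Sp,
  (∀ P ∈ T, LB.Rg y CV cD P ∧ (∀ p : ℕ, p.Prime → ¬ LB.Imp p P) ∧
    PP5.Df P = (f : ℤ) ^ 2 * discr K) → (T.card : ℝ) ≤ C * L6 f * (h5 K - 1)

open Classical in
theorem Fd_cnt {M C B ε : ℝ} (hM : 0 ≤ M) (hC : 0 ≤ C) (hB : 0 ≤ B) {F : ℕ}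
    (hT : ∀ X : ℕ, Ts X ≤ B * X)
    (hε : ∀ t : Finset ℕ, (∀ f ∈ t, F ≤ f) → ∑ f ∈ t, L6 f / (f : ℝ) ^ 2 ≤ ε)
    (S : Finset PP5.Sp) (hS : ∀ P ∈ S, PP5.Df P < 0 ∧ -(PP5.Df P : ℝ) ≤ M)
    (hf : ∀ P ∈ S, ∀ (K : IntermediateField ℚ ℂ) (_ : NumberField K), Module.finrank ℚ K = 2 →
      (∃ x : K, (x : ℂ).im ≠ 0) →
      ((S.filter (fun Q => cf (Dn Q) = cf (Dn P) ∧ Kf (Dn Q) = K)).card : ℝ) ≤
        C * L6 (cf (Dn P)) * (h5 K - 1)) :
    (S.card : ℝ) ≤ C * (∑ f ∈ range F, L6 f) * Ts ⌊M⌋₊ + C * B * M * ε := by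
  set t : Finset ℕ := S.image (fun P => cf (Dn P)) with ht
  have h1 : ∀ f ∈ t, 1 ≤ f := by
    intro f hf
    obtain ⟨P, hP, rfl⟩ := mem_image.1 hf
    obtain ⟨_, _, _, h, _⟩ := fa (hS P hP).1
    exact h
  -- the fibre over f
  have h2 : ∀ f ∈ t, ((S.filter (fun P => cf (Dn P) = f)).card : ℝ) ≤
      C * L6 f * Ts ⌊M / (f : ℝ) ^ 2⌋₊ := by
    intro f hft
    obtain ⟨P0, hP0, hfe⟩ := mem_image.1 hft
    have hf1 := h1 f hft
    have hf0 : (0 : ℝ) < (f : ℝ) ^ 2 := by positivity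
    have h3 := fib (S.filter (fun P => cf (Dn P) = f)) (fun P => Kf (Dn P))
      (famFin ⌊M / (f : ℝ) ^ 2⌋₊).toFinset (by
        intro P hP
        obtain ⟨hP1, hP2⟩ := mem_filter.1 hP
        obtain ⟨nf, hh2, him, _, hD, _, _⟩ := fa (hS P hP1).1
        refine mem_fam.2 ⟨nf, hh2, him, ?_⟩
        apply Nat.le_floor
        rw [le_div_iff₀ hf0]
        have h4 := (hS P hP1).2
        have h5 : ((Dn P : ℕ) : ℝ) = -(PP5.Df P : ℝ) := by
          have := Dn_cast (hS P hP1).1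
          exact_mod_cast this
        rw [← h5, hD, hP2] at h4
        push_cast at h4
        linarith) (fun K => C * L6 f * (h5 K - 1)) (by
        intro K hK
        obtain ⟨nf, hh2, him, _⟩ := mem_fam.1 hK
        rw [filter_filter]
        have := hf P0 hP0 K nf hh2 him
        rw [hfe] at this
        exact this)
    rw [← mul_sum] at h3
    exact h3
  have h3 := fib S (fun P => cf (Dn P)) t (fun P hP => mem_image_of_mem _ hP) _ h2
  refine h3.trans ?_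
  rw [← sum_filter_add_sum_filter_not t (fun f => f < F)]
  have h4 : ∑ f ∈ t.filter (fun f => f < F), C * L6 f * Ts ⌊M / (f : ℝ) ^ 2⌋₊ ≤
      C * (∑ f ∈ range F, L6 f) * Ts ⌊M⌋₊ := by
    calc ∑ f ∈ t.filter (fun f => f < F), C * L6 f * Ts ⌊M / (f : ℝ) ^ 2⌋₊
        ≤ ∑ f ∈ t.filter (fun f => f < F), C * L6 f * Ts ⌊M⌋₊ := by
          apply sum_le_sum
          intro f hf
          apply mul_le_mul_of_nonneg_left _ (mul_nonneg hC (L6_nn f))
          apply Ts_mono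
          apply Nat.floor_le_floor
          apply div_le_self hM
          have h5 := h1 f (mem_filter.1 hf).1
          have h6 : (1 : ℝ) ≤ f := by exact_mod_cast h5
          nlinarith
      _ ≤ ∑ f ∈ range F, C * L6 f * Ts ⌊M⌋₊ := by
          apply sum_le_sum_of_subset_of_nonneg
          · intro f hf
            exact mem_range.2 (mem_filter.1 hf).2
          · intro f _ _
            exact mul_nonneg (mul_nonneg hC (L6_nn f)) (Ts_nn _)
      _ = C * (∑ f ∈ range F, L6 f) * Ts ⌊M⌋₊ := by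
          rw [mul_sum, sum_mul]
  have h5 : ∑ f ∈ t.filter (fun f => ¬ f < F), C * L6 f * Ts ⌊M / (f : ℝ) ^ 2⌋₊ ≤
      C * B * M * ε := by
    calc ∑ f ∈ t.filter (fun f => ¬ f < F), C * L6 f * Ts ⌊M / (f : ℝ) ^ 2⌋₊
        ≤ ∑ f ∈ t.filter (fun f => ¬ f < F), C * B * M * (L6 f / (f : ℝ) ^ 2) := by
          apply sum_le_sum
          intro f hf
          have h6 : Ts ⌊M / (f : ℝ) ^ 2⌋₊ ≤ B * (M / (f : ℝ) ^ 2) :=
            (hT _).trans (mul_le_mul_of_nonneg_left (Nat.floor_le (by positivity)) hB)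
          calc C * L6 f * Ts ⌊M / (f : ℝ) ^ 2⌋₊ ≤ C * L6 f * (B * (M / (f : ℝ) ^ 2)) :=
                mul_le_mul_of_nonneg_left h6 (mul_nonneg hC (L6_nn f))
            _ = C * B * M * (L6 f / (f : ℝ) ^ 2) := by ring
      _ = C * B * M * ∑ f ∈ t.filter (fun f => ¬ f < F), L6 f / (f : ℝ) ^ 2 := by rw [mul_sum]
      _ ≤ C * B * M * ε := by
          apply mul_le_mul_of_nonneg_left _ (by positivity)
          apply hε
          intro f hf
          exact not_lt.1 (mem_filter.1 hf).2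
  linarith

open Classical in
/-- **part F** -/
theorem stF_of (hE : LB.StE) (hF2 : LB.StF2) (hM : Mult) (hT : Tot) : LB.StF := by
  obtain ⟨c, CV0, cD, δ, y1, hc, hcD, hδ, hE⟩ := hE
  obtain ⟨B, hB, hTot⟩ := hT
  set CV : ℝ := max CV0 1 with hCV
  have hCV1 : 1 ≤ CV := le_max_right _ _
  have hCV0 : 0 < CV := by linarith
  obtain ⟨C, y2, δm, hC, hδm, hM⟩ := hM CV cD hCV0 hcD
  set δ2 : ℝ := min δ δm with hδ2
  have hδ20 : 0 < δ2 := lt_min hδ hδm
  obtain ⟨η, C', hη, hF2⟩ := hF2 CV cD δ2 hCV0 hcD hδ20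
  have hc4 : 0 < c / (4 * (C * B * (16 * CV ^ 4) + 1)) := by positivity
  obtain ⟨F, hF⟩ := L6_tail _ hc4
  set L : ℝ := C * ∑ f ∈ range F, L6 f with hL
  have hL0 : 0 ≤ L := mul_nonneg hC (sum_nonneg fun f _ => L6_nn f)
  -- y large: C' y^(4-η) ≤ (c/4) y^4
  obtain ⟨y3, hy3⟩ : ∃ y3 : ℝ, ∀ y : ℝ, y3 ≤ y → 1 ≤ y → C' * y ^ (4 - η) ≤ c / 4 * y ^ 4 := by
    refine ⟨(4 * max C' 0 / c) ^ (1 / η), ?_⟩
    intro y hy hy1
    have hy0 : 0 < y := by linarith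
    have h1 : 4 * max C' 0 / c ≤ y ^ η := by
      have h2 : (0 : ℝ) ≤ 4 * max C' 0 / c := by positivity
      calc 4 * max C' 0 / c = ((4 * max C' 0 / c) ^ (1 / η)) ^ η := by
            rw [← Real.rpow_mul h2, one_div_mul_cancel hη.ne', Real.rpow_one]
        _ ≤ y ^ η := Real.rpow_le_rpow (Real.rpow_nonneg h2 _) hy hη.le
    have h3 : max C' 0 ≤ c / 4 * y ^ η := by
      rw [div_le_iff₀ hc] at h1
      linarith
    have h4 : y ^ (4 : ℕ) = y ^ η * y ^ (4 - η) := by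
      rw [← Real.rpow_natCast y 4, ← Real.rpow_add hy0]
      congr 1
      push_cast
      ring
    rw [h4, ← mul_assoc]
    exact mul_le_mul_of_nonneg_right ((le_max_left _ _).trans h3) (Real.rpow_nonneg hy0.le _)
  -- y large: 2 ≤ y ^ δ
  obtain ⟨y4, hy4⟩ : ∃ y4 : ℝ, ∀ y : ℝ, y4 ≤ y → (2 : ℝ) ≤ y ^ δ := by
    refine ⟨2 ^ (1 / δ), fun y hy => ?_⟩
    calc (2 : ℝ) = (2 ^ (1 / δ)) ^ δ := by
          rw [← Real.rpow_mul (by norm_num), one_div_mul_cancel hδ.ne', Real.rpow_one]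
      _ ≤ y ^ δ := Real.rpow_le_rpow (Real.rpow_nonneg (by norm_num) _) hy hδ.le
  set y0 : ℝ := max 1 (max y1 (max y2 (max y3 y4))) with hy0
  -- the bound for one y
  have key : ∀ y : ℝ, y0 ≤ y → c / 2 * y ^ 4 ≤ L * Ts ⌊16 * CV ^ 4 * y ^ 4⌋₊ := by
    intro y hy
    have hy1 : 1 ≤ y := (le_max_left _ _).trans hy
    have hyy1 : y1 ≤ y := ((le_max_left _ _).trans (le_max_right _ _)).trans hy
    have hyy2 : y2 ≤ y := ((le_max_left _ _).trans ((le_max_right _ _).trans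
      (le_max_right _ _))).trans hy
    have hyy3 : y3 ≤ y := ((le_max_left _ _).trans ((le_max_right _ _).trans
      ((le_max_right _ _).trans (le_max_right _ _)))).trans hy
    have hyy4 : y4 ≤ y := ((le_max_right _ _).trans ((le_max_right _ _).trans
      ((le_max_right _ _).trans (le_max_right _ _)))).trans hy
    have h2δ := hy4 y hyy4
    have hyp : 0 < y := by linarith
    obtain ⟨S, hS1, hS2⟩ := hE y hyy1
    have hreg : ∀ P ∈ S, LB.Rg y CV cD P := by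
      intro P hP
      have h := (hS2 P hP).1
      refine ⟨h.qd, h.pr, fun a => (h.le a).trans ?_, h.dl⟩
      exact mul_le_mul_of_nonneg_right (le_max_left _ _) hyp.le
    set Sb : Finset PP5.Sp := S.filter (fun P => ∃ f : ℕ, y ^ δ2 ≤ (f : ℝ) ∧ LB.Cdf f P) with hSb
    set S1 : Finset PP5.Sp := S.filter (fun P => ¬ ∃ f : ℕ, y ^ δ2 ≤ (f : ℝ) ∧ LB.Cdf f P) with hS1d
    have hbad : (Sb.card : ℝ) ≤ c / 4 * y ^ 4 := by
      refine (hF2 y hy1 Sb ?_).trans (hy3 y hyy3 hy1)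
      intro P hP
      obtain ⟨hP1, hP2⟩ := mem_filter.1 hP
      exact ⟨hreg P hP1, (hS2 P hP1).2.2 2 Nat.prime_two (by exact_mod_cast h2δ), hP2⟩
    have hcard : (S.card : ℝ) = Sb.card + S1.card := by
      have := card_filter_add_card_filter_not (s := S)
        (fun P => ∃ f : ℕ, y ^ δ2 ≤ (f : ℝ) ∧ LB.Cdf f P)
      exact_mod_cast this.symm
    have hDf : ∀ P ∈ S1, PP5.Df P < 0 := by
      intro P hP
      have h := (hreg P (mem_filter.1 hP).1).dl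
      have h2 : 0 < -(PP5.Df P : ℝ) := lt_of_lt_of_le (by positivity) h
      have h3 : (PP5.Df P : ℝ) < 0 := by linarith
      exact_mod_cast h3
    have hnc : ∀ P ∈ S1, ∀ f : ℕ, LB.Cdf f P → (f : ℝ) < y ^ δ2 := by
      intro P hP f hf
      by_contra hc
      exact (mem_filter.1 hP).2 ⟨f, not_lt.1 hc, hf⟩
    have hδle : y ^ δ2 ≤ y ^ δ := Real.rpow_le_rpow_of_exponent_le hy1 (min_le_left _ _)
    have hδle' : y ^ δ2 ≤ y ^ δm := Real.rpow_le_rpow_of_exponent_le hy1 (min_le_right _ _)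
    have hni : ∀ P ∈ S1, ∀ p : ℕ, p.Prime → ¬ LB.Imp p P := by
      intro P hP p hp hi
      have hPS := (mem_filter.1 hP).1
      have h1 := hnc P hP p (imp_cdf (hreg P hPS).qd hi)
      exact (hS2 P hPS).2.2 p hp (h1.le.trans hδle) hi
    have h1 := Fd_cnt (M := 16 * CV ^ 4 * y ^ 4) (C := C) (B := B) (F := F) (by positivity) hC hB
      (Ts_le hB hTot) hF S1 (by
        intro P hP
        refine ⟨hDf P hP, ?_⟩
        have h := Df_le (hreg P (mem_filter.1 hP).1).le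
        calc -(PP5.Df P : ℝ) ≤ 16 * (CV * y) ^ 4 := h
          _ = 16 * CV ^ 4 * y ^ 4 := by ring) (by
        intro P hP K nf hh2 him
        obtain ⟨_, _, _, hcf1, _, _, hcd⟩ := fa (hDf P hP)
        apply hM y hyy2 K nf hh2 him (cf (Dn P)) hcf1 ((hnc P hP _ hcd).le.trans hδle')
        intro Q hQ
        obtain ⟨hQ1, hQ2, hQ3⟩ := mem_filter.1 hQ
        refine ⟨hreg Q (mem_filter.1 hQ1).1, hni Q hQ1, ?_⟩
        obtain ⟨nf', hh2', him', _, _, hdf, _⟩ := fa (hDf Q hQ1)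
        rw [hQ2] at hdf
        rw [hdf, @discr_aD _ nf' hh2' him', hQ3, @discr_aD _ nf hh2 him])
    have h2 : C * B * (16 * CV ^ 4 * y ^ 4) * (c / (4 * (C * B * (16 * CV ^ 4) + 1))) ≤
        c / 4 * y ^ 4 := by
      have h3 : 0 < C * B * (16 * CV ^ 4) + 1 := by positivity
      have h4 : C * B * (16 * CV ^ 4) / (C * B * (16 * CV ^ 4) + 1) ≤ 1 := by
        rw [div_le_one h3]
        linarith
      calc C * B * (16 * CV ^ 4 * y ^ 4) * (c / (4 * (C * B * (16 * CV ^ 4) + 1)))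
          = (C * B * (16 * CV ^ 4) / (C * B * (16 * CV ^ 4) + 1)) * (c / 4 * y ^ 4) := by
            field_simp
        _ ≤ 1 * (c / 4 * y ^ 4) := mul_le_mul_of_nonneg_right h4 (by positivity)
        _ = c / 4 * y ^ 4 := one_mul _
    have h5 : c * y ^ 4 ≤ Sb.card + S1.card := by rw [← hcard]; exact hS1
    linarith
  -- conclusion
  have hK0 : 0 < 16 * CV ^ 4 := by positivity
  refine ⟨c / 2 / (16 * CV ^ 4) / (L + 1), 16 * CV ^ 4 * y0 ^ 4, by positivity, ?_⟩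
  intro X hX
  have hy00 : 0 < y0 := lt_of_lt_of_le one_pos (le_max_left _ _)
  have hX0 : 0 < X := lt_of_lt_of_le (by positivity) hX
  rw [Ts_eq hX0.le]
  set y : ℝ := (X / (16 * CV ^ 4)) ^ (1 / 4 : ℝ) with hy
  have hy4 : y ^ 4 = X / (16 * CV ^ 4) := by
    rw [hy, ← Real.rpow_natCast, ← Real.rpow_mul (by positivity)]
    norm_num
  have hyy : y0 ≤ y := by
    by_contra hlt
    push Not at hlt
    have h1 : y ^ 4 < y0 ^ 4 := by
      apply pow_lt_pow_left₀ hlt _ (by norm_num)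
      rw [hy]; positivity
    rw [hy4, div_lt_iff₀ hK0] at h1
    linarith
  have h1 := key y hyy
  rw [hy4, mul_div_cancel₀ _ hK0.ne'] at h1
  have h2 : L * Ts ⌊X⌋₊ ≤ (L + 1) * Ts ⌊X⌋₊ :=
    mul_le_mul_of_nonneg_right (by linarith) (Ts_nn _)
  have h3 := h1.trans h2
  have h4 : 0 < L + 1 := by linarith
  calc c / 2 / (16 * CV ^ 4) / (L + 1) * X = (c / 2 * (X / (16 * CV ^ 4))) / (L + 1) := by ring
    _ ≤ ((L + 1) * Ts ⌊X⌋₊) / (L + 1) := div_le_div_of_nonneg_right h3 h4.le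
    _ = Ts ⌊X⌋₊ := by field_simp

end Pool.Agent.LBM
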