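import Pool.Agent.LB.Defs
import Pool.Agent.FTL.LFd
import Pool.Agent.FTA.Fam
import Pool.Agent.FTB.ImZ

/-!
# LBM/Fa: the field and the conductor of a point
-/

set_option autoImplicit false

namespace Pool.Agent.LBM

open NumberField Pool.Agent.FTA Pool.Agent.FTB Pool.Agent.FTL

/-- `D = -Df P` -/
def Dn (P : PP5.Sp) : ℕ := (-(PP5.Df P)).toNat

theorem Df_mod (P : PP5.Sp) : PP5.Df P % 4 = 0 ∨ PP5.Df P % 4 = 1 := by
  unfold PP5.Df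
  set a := P 6 * P 11 + P 8 * P 9 - 2 * P 7 * P 10
  set b := (P 6 * P 8 - P 7 ^ 2) * (P 9 * P 11 - P 10 ^ 2)
  have h : a ^ 2 - 4 * (P 6 * P 8 - P 7 ^ 2) * (P 9 * P 11 - P 10 ^ 2) = a ^ 2 - 4 * b := by
    simp only [b]; ring
  rw [h]
  rcases Int.even_or_odd' a with ⟨k, hk | hk⟩
  · left
    rw [hk, show (2 * k) ^ 2 - 4 * b = 4 * (k ^ 2 - b) by ring]
    omega
  · right
    rw [hk, show (2 * k + 1) ^ 2 - 4 * b = 4 * (k ^ 2 + k - b) + 1 by ring]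
    omega

theorem Dn_cast {P : PP5.Sp} (h : PP5.Df P < 0) : ((Dn P : ℕ) : ℤ) = -(PP5.Df P) := by
  unfold Dn
  omega

theorem Dn_pos {P : PP5.Sp} (h : PP5.Df P < 0) : 1 ≤ Dn P := by
  have := Dn_cast h
  omega

theorem Dn_mod {P : PP5.Sp} (h : PP5.Df P < 0) : Dn P % 4 = 0 ∨ Dn P % 4 = 3 := by
  have h1 := Dn_cast h
  have h2 := Df_mod P
  omega

theorem aD_mod (K : IntermediateField ℚ ℂ) [NumberField K] (h2 : Module.finrank ℚ K = 2)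
    (him : ∃ x : K, (x : ℂ).im ≠ 0) : (-(aD K : ℤ)) % 4 = 0 ∨ (-(aD K : ℤ)) % 4 = 1 := by
  obtain ⟨ω, t, h⟩ := omg_exists K h2 him
  have h1 := co_norm K h2 him _ _ _ h
  set n : ℤ := (Ideal.absNorm (Ideal.span {ω}) : ℤ)
  rw [one_pow, mul_one] at h1
  rcases Int.even_or_odd' t with ⟨k, hk | hk⟩
  · left
    rw [hk, show (2 * k) ^ 2 = 4 * k ^ 2 by ring] at h1
    omega
  · right
    rw [hk, show (2 * k + 1) ^ 2 = 4 * (k ^ 2 + k) + 1 by ring] at h1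
    omega

theorem discr_aD (K : IntermediateField ℚ ℂ) [NumberField K] (h2 : Module.finrank ℚ K = 2)
    (him : ∃ x : K, (x : ℂ).im ≠ 0) : discr K = -(aD K : ℤ) := by
  obtain ⟨b⟩ := exists_basis K h2
  have h1 := discr_eq_om K h2 him b
  have h3 : discr K ≤ 0 := by
    have : (discr K : ℝ) ≤ 0 := by
      rw [h1]
      nlinarith [sq_nonneg (om K b)]
    exact_mod_cast this
  rw [aD_eq]
  omega

/-- the field and the conductor of a point -/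
theorem fa {P : PP5.Sp} (h : PP5.Df P < 0) :
    ∃ _ : NumberField (Kf (Dn P)), Module.finrank ℚ (Kf (Dn P)) = 2 ∧
      (∃ x : Kf (Dn P), (x : ℂ).im ≠ 0) ∧ 1 ≤ cf (Dn P) ∧
      Dn P = cf (Dn P) ^ 2 * aD (Kf (Dn P)) ∧
      PP5.Df P = (cf (Dn P) : ℤ) ^ 2 * discr (Kf (Dn P)) ∧ LB.Cdf (cf (Dn P)) P := by
  obtain ⟨⟨nf, h2⟩, him, hD, h1, -⟩ := fld (Dn P) (Dn_pos h) (Dn_mod h)
  have h3 : PP5.Df P = (cf (Dn P) : ℤ) ^ 2 * (-(aD (Kf (Dn P)) : ℤ)) := by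
    have h4 := Dn_cast h
    have h5 : ((Dn P : ℕ) : ℤ) = ((cf (Dn P) : ℕ) : ℤ) ^ 2 * ((aD (Kf (Dn P)) : ℕ) : ℤ) := by
      exact_mod_cast hD
    rw [h5] at h4
    linarith
  refine ⟨nf, h2, him, h1, hD, ?_, _, h3, @aD_mod _ nf h2 him⟩
  rw [@discr_aD _ nf h2 him]
  exact h3

/-- an improper point has a conductor -/
theorem imp_cdf {P : PP5.Sp} (hq : PP5.Qd P) {p : ℕ} (h : LB.Imp p P) : LB.Cdf p P := by
  obtain ⟨⟨a, ha⟩, ⟨b, hb⟩, ⟨c, hc⟩⟩ := h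
  have h1 : PP5.Nf P = P 7 ^ 2 - P 6 * P 8 := by
    unfold PP5.Nf
    linarith [hq.h1]
  refine ⟨b ^ 2 - 4 * a * c, ?_, ?_⟩
  · have h2 : PP5.Df P = PP5.Bf P ^ 2 - 4 * PP5.Nf P * (P 10 ^ 2 - P 9 * P 11) := by
      rw [h1]
      unfold PP5.Df PP5.Bf
      ring
    rw [h2, ha, hb, hc]
    ring
  · rcases Int.even_or_odd' b with ⟨k, hk | hk⟩
    · left
      rw [hk, show (2 * k) ^ 2 - 4 * a * c = 4 * (k ^ 2 - a * c) by ring]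
      omega
    · right
      rw [hk, show (2 * k + 1) ^ 2 - 4 * a * c = 4 * (k ^ 2 + k - a * c) + 1 by ring]
      omega

/-- the size of the discriminant -/
theorem Df_le {P : PP5.Sp} {B : ℝ} (hB : ∀ a, |(P a : ℝ)| ≤ B) :
    -(PP5.Df P : ℝ) ≤ 16 * B ^ 4 := by
  have hB0 : 0 ≤ B := (abs_nonneg _).trans (hB 0)
  have hm : ∀ i j, |(P i : ℝ) * P j| ≤ B ^ 2 := by
    intro i j
    rw [abs_mul, sq]
    exact mul_le_mul (hB i) (hB j) (abs_nonneg _) hB0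
  have h1 : |((P 6 : ℝ) * P 8 - P 7 ^ 2)| ≤ 2 * B ^ 2 := by
    have e1 := hm 6 8
    have e2 := hm 7 7
    calc |((P 6 : ℝ) * P 8 - P 7 ^ 2)| = |((P 6 : ℝ) * P 8 - P 7 * P 7)| := by rw [sq]
      _ ≤ |(P 6 : ℝ) * P 8| + |(P 7 : ℝ) * P 7| := abs_sub _ _
      _ ≤ 2 * B ^ 2 := by linarith
  have h2 : |((P 9 : ℝ) * P 11 - P 10 ^ 2)| ≤ 2 * B ^ 2 := by
    have e1 := hm 9 11
    have e2 := hm 10 10
    calc |((P 9 : ℝ) * P 11 - P 10 ^ 2)| = |((P 9 : ℝ) * P 11 - P 10 * P 10)| := by rw [sq]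
      _ ≤ |(P 9 : ℝ) * P 11| + |(P 10 : ℝ) * P 10| := abs_sub _ _
      _ ≤ 2 * B ^ 2 := by linarith
  have h3 : |((P 6 : ℝ) * P 8 - P 7 ^ 2) * ((P 9 : ℝ) * P 11 - P 10 ^ 2)| ≤ 4 * B ^ 4 := by
    rw [abs_mul]
    calc _ ≤ (2 * B ^ 2) * (2 * B ^ 2) := mul_le_mul h1 h2 (abs_nonneg _) (by positivity)
      _ = 4 * B ^ 4 := by ring
  have h4 := (abs_le.1 h3).2
  have h5 : (PP5.Df P : ℝ) = ((P 6 : ℝ) * P 11 + P 8 * P 9 - 2 * P 7 * P 10) ^ 2 -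
      4 * (((P 6 : ℝ) * P 8 - P 7 ^ 2) * ((P 9 : ℝ) * P 11 - P 10 ^ 2)) := by
    unfold PP5.Df
    push_cast
    ring
  rw [h5]
  nlinarith [sq_nonneg ((P 6 : ℝ) * P 11 + P 8 * P 9 - 2 * P 7 * P 10)]

end Pool.Agent.LBM
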